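import Pool.Agent.Lib.MP_b5021c_nt.IfaceKV
import Pool.Agent.Lib.MP_b5021c_nt.O1.H12.Qsk
import Pool.Agent.Lib.MP_b5021c_nt.E.H67.O5
import Pool.Agent.Lib.MP_b5021c_nt.SF.H38.Nby
import Pool.Agent.Lib.MP_b5021c_nt.SF.H27.Bas
import Pool.Agent.Lib.MP_b5021c_nt.KV.H03.Vse
import Pool.Agent.Lib.MP_b5021c_nt.KV.H31.Ext

/-!
# MP_b5021c_nt, row KV_NS (helper47): no small factor in the second closing, `j ≥ 3`
-/

namespace Pool.Agent.B5.KV.H47

open scoped LaurentPolynomial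
open Polynomial
open Pool.Agent.B5.KE
open Pool.Agent.B5.Nr.Sch
open Pool.Agent.B5.H66 (classV_of)

/-- The integers of the count. -/
theorem ns_num {j L c0 N' SB : ℕ} (hj : 3 ≤ j) (hν : c0 * N' + 1 = j)
    (hL : L * N' ≤ c0 * N' + 2) (hrk : 2 * (c0 * N') ≤ L + 2 * SB)
    (hSB : (SB = 0 ∧ N' = 1) ∨ (SB ≤ N' ∧ 2 ≤ N')) :
    c0 = 1 ∨ (c0 = 2 ∧ N' = 1 ∧ L = 4) := by
  rcases hSB with ⟨h1, h2⟩ | ⟨h1, h2⟩
  · subst h1 h2
    omega
  · left
    rcases Nat.lt_or_ge c0 2 with h | h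
    · have : c0 ≠ 0 := by
        rintro rfl
        omega
      omega
    · exfalso
      have h3 : 2 * (c0 * N') ≤ L + 2 * N' := by omega
      have h4 : 2 * (c0 * N') * N' ≤ (L + 2 * N') * N' := Nat.mul_le_mul_right _ h3
      nlinarith [Nat.mul_le_mul h h2, Nat.mul_le_mul h (Nat.mul_le_mul h2 h2)]

/-- The means of masses `t_l / m_l`. -/
theorem mas0 (hNr : Nr3S) (hfat : FatS) {q v : ℂ[X]} (hq : ∀ z : ℂ, ‖z‖ ≤ 1 → q.eval z ≠ 0)
    (hv : ∀ z : ℂ, ‖z‖ < 1 → v.eval z ≠ 0)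
    (hle : ∀ z : ℂ, ‖z‖ = 1 → ‖v.eval z - q.eval z‖ ≤ ‖q.eval z‖) {ι : Type} (s : Finset ι)
    (t : ι → RO ℤ) (m : ι → ℕ) (ht0 : ∀ l ∈ s, t l ≠ 0) (htn : ∀ l ∈ s, NnR (t l))
    (hyp : ∀ z : Circle, (∑ l ∈ s, (evR z (t l)).re / (m l : ℝ)) * ‖v.eval (z : ℂ)‖ ^ 2 ≤
      2 * (q.eval (z : ℂ) * (starRingEnd ℂ) (v.eval (z : ℂ))).re - ‖v.eval (z : ℂ)‖ ^ 2) :
    ∑ l ∈ s, ((t l).coeff 0 : ℝ) / (m l : ℝ) ≤ 2 * (q.eval 0 / v.eval 0).re - 1 := by
  classical
  have key : ∀ l, ∃ n : ℕ, l ∈ s → ∀ z : Circle, (evR z (t l)).re =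
      (Coef.emb ((t l).coeff 0) : ℂ).re + 2 * ((H03.tpl (t l) n).eval (z : ℂ)).re := by
    intro l
    by_cases hl : l ∈ s
    · obtain ⟨-, hco, -⟩ := hNr ℤ (t l) (ht0 l hl) (htn l hl)
      obtain ⟨n, hn⟩ := H03.re_evR (t l) (fun k hk => (hco k hk).2)
      exact ⟨n, fun _ => hn⟩
    · exact ⟨0, fun h => absurd h hl⟩
  choose n hn using key
  have hemb : ∀ x : ℤ, (Coef.emb x : ℂ).re = (x : ℝ) := fun x => by
    change ((Int.castRingHom ℂ) x).re = _
    rw [eq_intCast, Complex.intCast_re]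
  obtain ⟨r, hr⟩ : ∃ r : ℂ[X], r = ∑ l ∈ s, C (((m l : ℝ)⁻¹ : ℝ) : ℂ) *
    (C (((t l).coeff 0 : ℤ) : ℂ) + C 2 * H03.tpl (t l) (n l)) := ⟨_, rfl⟩
  have hre : ∀ z : ℂ, (r.eval z).re = ∑ l ∈ s, (((t l).coeff 0 : ℝ) +
      2 * ((H03.tpl (t l) (n l)).eval z).re) / (m l : ℝ) := by
    intro z
    rw [hr, eval_finsetSum, Complex.re_sum]
    apply Finset.sum_congr rfl
    intro l _
    rw [eval_mul, eval_C, Complex.re_ofReal_mul, eval_add, eval_mul, eval_C, eval_C,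
      Complex.add_re, Complex.intCast_re, div_eq_inv_mul]
    congr 2
    simp
  have h1 := H67.pavi hfat hq hv hle (a := 0) (r := r) (by simp) (by
    intro z hz hz0
    obtain ⟨w, rfl⟩ := circle_of z hz
    have h1 := hyp w
    have e1 : ∑ l ∈ s, (evR w (t l)).re / (m l : ℝ) = (r.eval (w : ℂ)).re := by
      rw [hre]
      apply Finset.sum_congr rfl
      intro l hl
      rw [hn l hl w, hemb]
    rw [e1] at h1
    have hp : 0 < ‖v.eval (w : ℂ)‖ ^ 2 := pow_pos (norm_pos_iff.mpr hz0) 2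
    have h2 : (q.eval (w : ℂ) / v.eval (w : ℂ)).re =
        (q.eval (w : ℂ) * (starRingEnd ℂ) (v.eval (w : ℂ))).re / ‖v.eval (w : ℂ)‖ ^ 2 := by
      rw [← Complex.normSq_eq_norm_sq, Complex.div_re, Complex.mul_re, Complex.conj_re,
        Complex.conj_im]
      have : Complex.normSq (v.eval (w : ℂ)) ≠ 0 := (Complex.normSq_pos.mpr hz0).ne'
      field_simp
      ring
    rw [h2, ← mul_le_mul_iff_left₀ hp]
    calc (r.eval (w : ℂ)).re * ‖v.eval (w : ℂ)‖ ^ 2 ≤ _ := h1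
      _ = _ := by rw [sub_mul, one_mul, mul_assoc, div_mul_cancel₀ _ hp.ne'])
  rw [hre] at h1
  refine le_trans (le_of_eq ?_) h1
  apply Finset.sum_congr rfl
  intro l _
  have h6 : (H03.tpl (t l) (n l)).eval 0 = 0 := by
    rw [← coeff_zero_eq_eval_zero, H03.tpl_coeff_zero]
  rw [h6, Complex.zero_re, mul_zero, add_zero]

/-- A nonnegative trigonometric polynomial of mean one. -/
theorem t_one (hNr : Nr3S) {t : RO ℤ} (h0 : t ≠ 0) (hn : NnR t) (h1 : t.coeff 0 = 1) : t = 1 := by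
  obtain ⟨-, -, h⟩ := hNr ℤ t h0 hn
  rcases h with h | h
  · exact h
  · rw [h1] at h
    change 2 ≤ ((Int.castRingHom ℂ) 1).re at h
    rw [map_one, Complex.one_re] at h
    norm_num at h

/-- THE CASE `M c = 1` (copy of `E/H67/O5.lean` o5a). -/
theorem ns_one (hG : H67.E3vgS) (hT : H67.TrvoS) (hNr : Nr3S) (hfat : FatS) {P L : Type}
    [Fintype P] [DecidableEq P] [AddCommGroup L] [Module.Free ℤ L] [Module.Finite ℤ L]
    (phi : L →+ (P → ℤ)) (D : AO ℤ L) (S : L) (i0 : P) (eta : (RO ℤ)ˣ)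
    (h : co phi i0 S = 1) (c : RO ℤ) (n : ℕ) (G : Fin n → AO ℤ (Ker (co phi i0)))
    (fd : FD phi D S i0 eta h c n G) (hMc : M c = 1) (m : ℤ) (q b : ℤ[X]) (j : ℕ) (a : ℝ)
    (hj : 3 ≤ j) (hrk : Module.finrank ℤ L + 1 = 2 * j)
    (hq : D.coeff 0 = LaurentPolynomial.T m * toLaurent q)
    (hb : (eta : RO ℤ) * D.coeff S = LaurentPolynomial.T m * toLaurent b)
    (hqf : ZF (q.map Coef.emb)) (hvf : ZF ((q + b).map Coef.emb)) (hb1 : |b.coeff 0| = 1)
    (hq0 : |q.coeff 0| = j) (hv0 : |(q + b).coeff 0| = (j : ℤ) - 1) (hbm : b.eval (-1) = 0)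
    (ha0 : 0 < a) (haj : a < 1 / j) (hθ : a⁻¹ - a < j)
    (hval : -((q.map Coef.emb).eval (a : ℂ) / (b.map Coef.emb).eval (a : ℂ)).re *
      (a * (1 + a)) ≤ 1) : ¬ (snp phi S i0 G).Nonempty := by
  intro hsn
  have hj3 : (3 : ℝ) ≤ (j : ℝ) := by exact_mod_cast hj
  have habs : |a| = a := abs_of_pos ha0
  have haj' : a * j < 1 := by
    rw [lt_div_iff₀ (by linarith)] at haj
    exact haj
  have ha2 : a ≤ 1 / 2 := by nlinarith
  have hne : q + b + b ≠ 0 := by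
    intro h0
    have h1 := congrArg (fun p : ℤ[X] => p.coeff 0) h0
    simp only [coeff_add, coeff_zero] at h1
    have h2 : q.coeff 0 = -(2 * b.coeff 0) := by linarith
    have h3 : |q.coeff 0| = 2 * |b.coeff 0| := by rw [h2, abs_neg, abs_mul, abs_two]
    rw [hq0, hb1] at h3
    omega
  obtain ⟨zb, D', b', e, hDD, hRb, hc0, -, hcl⟩ := hG ℤ P L phi D S i0 eta h c n G fd hMc hsn m q b
    hq hb hqf hvf hne (fun t ht0 hnn hqz hle hyp => H67.t03n hNr hfat t q b ht0 hnn hqz hvf hle hyp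
      (by rw [hb1, hv0]; omega) hbm)
  have hembr : (Coef.emb : ℤ →+* ℂ) = Int.castRingHom ℂ := rfl
  have hbc1 : (b.map (Coef.emb : ℤ →+* ℂ)).eval (-1) = 0 := by
    have h1 : (b.map (Coef.emb : ℤ →+* ℂ)).eval (((-1 : ℤ) : ℂ)) = ((b.eval (-1) : ℤ) : ℂ) := by
      rw [hembr, eval_intCast_map]
      rfl
    rw [hbm] at h1
    simpa using h1
  have e1 : (map (Coef.emb : ℤ →+* ℂ) (-b)) = -(map (Coef.emb : ℤ →+* ℂ) b) :=
    Polynomial.map_neg _
  obtain ⟨-, -, h3⟩ := hT P L phi D' b' e m q (-b) hDD fd.cc.two hRb (by rw [hc0, hq])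
    (by rw [hcl, hb, map_neg, mul_neg]) hqf (by
      intro s hs h0
      rw [Polynomial.map_neg, eval_neg, neg_eq_zero] at h0
      exact zb s hs h0) (by rw [coeff_neg, abs_neg, hb1]) a (by rw [habs]; exact ha2)
  have h4 := h3 ⟨-1, by simp, by rw [e1, eval_neg, hbc1, neg_zero]⟩
  have hrk' : (Module.finrank ℤ L : ℝ) = 2 * j - 1 := by
    have : (Module.finrank ℤ L : ℝ) + 1 = 2 * j := by exact_mod_cast hrk
    linarith
  rw [e1, eval_neg, div_neg, Complex.neg_re, habs, hrk'] at h4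
  set Y : ℝ := ((q.map (Coef.emb : ℤ →+* ℂ)).eval (a : ℂ) /
    (b.map (Coef.emb : ℤ →+* ℂ)).eval (a : ℂ)).re with hY
  have hpos : 0 < a * (1 + a) := by positivity
  have h7 : (2 * (j : ℝ) - 1 + (1 - a) / (1 + a)) * (a * (1 + a)) ≤ 2 * -Y * (a * (1 + a)) :=
    mul_le_mul_of_nonneg_right h4 hpos.le
  have h8 : (2 * (j : ℝ) - 1 + (1 - a) / (1 + a)) * (a * (1 + a)) =
      (2 * (j : ℝ) - 1) * (a * (1 + a)) + a * (1 - a) := by
    field_simp
  rw [h8] at h7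
  have h9 : 1 - a ^ 2 < j * a := by
    have h10 := mul_lt_mul_of_pos_right hθ ha0
    rw [sub_mul, inv_mul_cancel₀ ha0.ne'] at h10
    nlinarith
  nlinarith [mul_nonneg (by linarith : (0 : ℝ) ≤ (j : ℝ) - 2) (sq_nonneg a)]

/-- ROW KV_NS. -/
theorem kvn (hSm : SmallS) (hQst : QstS) (hQp : Qp3S) (hKe : KerEvS) (hMm : MmulS) (hMV : MVS)
    (hE1 : E1S) (hDb : Db3S) (hNn : Nn3S) (hHp : Hp3S)
    (hGen : GenS) (hE : SlEvalS) (hEv : EvRS) (hSh : SharpS) (hDe : DensS) (hZ : ZfinS)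
    (hU : UnitAS) (hFace : FaceS) (hSt : StSpecS) (hMu : MultiS) (hE2 : E2S) (hP : PrimS)
    (hB3 : B3S) (hFull : FullS) (hNd : Nd3vS) (hNr : Nr3S) (hfat : FatS) (hG : H67.E3vgS)
    (hT : H67.TrvoS) (hG1 : G1pS) (hEvz : EvzS) (hEv1 : BdV ℤ 1 1) (hFcl : FclS)
    (hR : ResWDS) (hRS : ResStS) : KvnS := by
  classical
  intro P L _ _ _ _ _ phi G T eta u q f E a j i1 h1 c n H K hj fd i
  by_contra hi
  have hr2 : 2 ≤ Module.finrank ℤ L := fd.cc.two
  obtain ⟨n0, s0, hs0, hu0⟩ :=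
    MP_b5021c_nt.Unr.unit_R ((u⁻¹ : (RO ℤ)ˣ) : RO ℤ) (u⁻¹).isUnit
  rw [LaurentPolynomial.single_eq_C_mul_T] at hu0
  have huu : ((u⁻¹ : (RO ℤ)ˣ) : RO ℤ) * (u : RO ℤ) = 1 := u.inv_mul
  obtain ⟨V, hV⟩ : ∃ V : ℤ[X], V = E - (1 + X) * f := ⟨_, rfl⟩
  have g0 := K.g0
  have gR := K.gT
  have hss : s0 * s0 = 1 := by rcases hs0 with h | h <;> rw [h] <;> norm_num
  have hs1 : |(s0 : ℝ)| = 1 := by rcases hs0 with h | h <;> rw [h] <;> simp
  have hs1' : |s0| = 1 := by rcases hs0 with h | h <;> rw [h] <;> simp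
  have hs0c : ((s0 : ℤ) : ℂ) ≠ 0 := by rcases hs0 with h | h <;> rw [h] <;> simp
  have hq' : G.coeff 0 = LaurentPolynomial.T n0 * toLaurent (C s0 * E) := by
    have h2 : G.coeff 0 = ((u⁻¹ : (RO ℤ)ˣ) : RO ℤ) * toLaurent E := by
      rw [← g0, ← mul_assoc, huu, one_mul]
    rw [h2, hu0, map_mul, toLaurent_C]
    ring
  have hb' : (eta : RO ℤ) * G.coeff T =
      LaurentPolynomial.T n0 * toLaurent (-(C s0 * ((1 + X) * f))) := by
    have h2 : (eta : RO ℤ) * G.coeff T =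
        ((u⁻¹ : (RO ℤ)ˣ) : RO ℤ) * -toLaurent ((1 + X) * f) := by
      rw [← gR, ← mul_assoc, huu, one_mul]
    rw [h2, hu0, map_neg, map_mul toLaurent (C s0), toLaurent_C]
    ring
  have hsq : C s0 * E + -(C s0 * ((1 + X) * f)) = C s0 * V := by rw [hV]; ring
  have hsumT : G.coeff 0 + (eta : RO ℤ) * G.coeff T =
      LaurentPolynomial.T n0 * toLaurent (C s0 * V) := by
    rw [hq', hb', ← mul_add, ← map_add, hsq]
  -- the circle
  obtain ⟨ez, -, -, -, -, eray⟩ := hE2 ℤ P L phi G K.dd hr2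
  have hle : ∀ z : ℂ, ‖z‖ = 1 → ‖(aeval z ((1 + X) * f) : ℂ)‖ ≤ ‖(aeval z E : ℂ)‖ := by
    intro z hz
    obtain ⟨zc, rfl⟩ := circle_of z hz
    have h2 := (eray T K.ray).1 zc
    have e1 : ‖evR zc (u : RO ℤ)‖ = 1 := C4C.norm_evR_unit zc u.isUnit
    have e2 : ‖evR zc (eta : RO ℤ)‖ = 1 := C4C.norm_evR_unit zc eta.isUnit
    have h3 : ‖evR zc (G.coeff T)‖ = ‖(aeval (zc : ℂ) ((1 + X) * f) : ℂ)‖ := by
      have h4 := congrArg (fun p => ‖evR zc p‖) gR
      simp only [map_mul, map_neg, norm_mul, norm_neg, e1, e2, one_mul] at h4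
      rw [h4, ← norm_mul, ← map_mul (evR zc), ← map_mul toLaurent, evR_poly]
    have h4 : ‖evR zc (G.coeff 0)‖ = ‖(aeval (zc : ℂ) E : ℂ)‖ := by
      rw [← evR_poly, ← g0, map_mul, norm_mul, e1, one_mul]
    rw [h3, h4] at h2
    exact h2
  obtain ⟨V0, Vz⟩ := H03.V_facts (by omega : 2 ≤ j) hV K.E0 K.f0 K.Ez hle
  have emC : ∀ (p : ℤ[X]) (z : ℂ), ((C s0 * p).map (Coef.emb : ℤ →+* ℂ)).eval z =
      (s0 : ℂ) * aeval z p := by
    intro p z
    rw [ev_map, map_mul, aeval_C]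
    rfl
  have hVm : (aeval (-1 : ℂ) V : ℂ) ≠ 0 := by
    rw [hV, map_sub, map_mul, map_add, map_one, aeval_X, add_neg_cancel, zero_mul, sub_zero]
    exact K.Ez (-1) (by simp)
  have hVE : (aeval (-1 : ℂ) V : ℂ) = aeval (-1 : ℂ) E := by
    rw [hV, map_sub, map_mul, map_add, map_one, aeval_X, add_neg_cancel, zero_mul, sub_zero]
  obtain ⟨N, hN⟩ : ∃ N : ℕ, N = j - 1 := ⟨_, rfl⟩
  have hN1 : 2 ≤ N := by omega
  have hNj : (N : ℤ) = (j : ℤ) - 1 := by omega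
  have hVN : |((C s0 * V).coeff 0 : ℝ)| = N := by
    rw [mul_coeff_zero, coeff_C_zero, V0, ← hNj, Int.cast_mul, abs_mul, hs1, one_mul,
      Int.cast_natCast, Nat.abs_cast]
  have hcV : ClassV N (G.coeff 0 + (eta : RO ℤ) * G.coeff T) := by
    refine classV_of (by exact_mod_cast (by omega : 1 ≤ N)) hsumT hVN ?_
    intro z hz
    rw [show ((C s0 * V).map (Int.castRingHom ℂ)).eval z =
      ((C s0 * V).map (Coef.emb : ℤ →+* ℂ)).eval z from rfl, emC]
    exact mul_ne_zero hs0c (Vz z hz)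
  -- no pure factor
  have nopure : ∀ l, ¬ Pure phi T i1 (H l) := by
    intro l hl
    obtain ⟨a, ha, b, hb, hab⟩ := fd.wd l
    have key : ∀ a : Ker (co phi i1), (∀ j, phi T j = 0 → phi (a : L) j = 0) → a = 0 := by
      intro a ha
      obtain ⟨k, hk⟩ := K.im (a : L) ha
      have h2 : co phi i1 (a : L) = 0 := a.2
      rw [hk, map_zsmul, h1, smul_eq_mul, mul_one] at h2
      apply Subtype.ext
      rw [hk, h2, zero_smul]
      rfl
    apply hab
    have h2 : a = 0 := key a fun j hj => hl a ha j (by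
      unfold OO
      exact Finset.mem_filter.mpr ⟨Finset.mem_univ _, hj⟩)
    have h3 : b = 0 := key b fun j hj => hl b hb j (by
      unfold OO
      exact Finset.mem_filter.mpr ⟨Finset.mem_univ _, hj⟩)
    rw [h2, h3]
  have hsn : (snp phi T i1 H).Nonempty := by
    refine ⟨i, ?_⟩
    unfold snp
    exact Finset.mem_filter.mpr ⟨Finset.mem_univ _, hi, nopure i⟩
  -- no double zeros
  have nod : ∀ z0 : ℂ, ‖z0‖ = 1 → ¬ (X - C z0) ^ 2 ∣ (C s0 * V).map (Coef.emb : ℤ →+* ℂ) := by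
    intro z0 hz0 hd
    refine hNd (E.map (Coef.emb : ℤ →+* ℂ)) (V.map (Coef.emb : ℤ →+* ℂ)) z0 ?_ ?_ ?_ hz0 ?_
    · intro z hz
      rw [ev_map]
      exact K.Ez z hz
    · intro z hz
      rw [ev_map, ev_map, hV, map_sub, sub_mul, Complex.sub_re, Complex.mul_conj,
        Complex.normSq_eq_norm_sq, Complex.ofReal_re]
      have h2 := hle z hz
      have h3 := Complex.re_le_norm ((aeval z ((1 + X) * f) : ℂ) *
        (starRingEnd ℂ) (aeval z E : ℂ))
      rw [norm_mul, Complex.norm_conj] at h3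
      have h4 := norm_nonneg (aeval z E : ℂ)
      nlinarith
    · rw [Ne, Polynomial.map_eq_zero_iff emb_inj]
      intro h0
      rw [h0, coeff_zero] at V0
      omega
    · obtain ⟨d, hd⟩ := hd
      refine ⟨(C s0 : ℤ[X]).map (Coef.emb : ℤ →+* ℂ) * d, ?_⟩
      have h2 : V = C s0 * (C s0 * V) := by
        rw [← mul_assoc, ← C_mul, hss, C_1, one_mul]
      conv_lhs => rw [h2]
      rw [Polynomial.map_mul, hd]
      ring
  -- the classes
  have hcls := hcV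
  rw [fd.v00] at hcls
  obtain ⟨Nc, -, hccV, -, -⟩ := (hE1 ℤ).1 _ _ _ hcls
  obtain ⟨c0, hc0, rfl⟩ := KV31.classV_nat hccV
  have hgV : ∀ i, ∃ m : ℕ, 1 ≤ m ∧ ClassV (m : ℝ) ((H i).coeff 0) := by
    intro i
    have h3 : c * ∏ i, (H i).coeff 0 = (H i).coeff 0 * (c * ∏ k ∈ Finset.univ.erase i, (H k).coeff 0) := by
      rw [← Finset.mul_prod_erase Finset.univ (fun i => (H i).coeff 0) (Finset.mem_univ i)]
      ring
    rw [h3] at hcls
    obtain ⟨N1, -, h4, -, -⟩ := (hE1 ℤ).1 _ _ _ hcls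
    obtain ⟨m, hm, rfl⟩ := KV31.classV_nat h4
    exact ⟨m, hm, h4⟩
  choose Ni hNi1 hNiV using hgV
  have hMc : M c = c0 := ((hMV ℤ).1 _ _ hccV).2
  have hMi : ∀ i, M ((H i).coeff 0) = Ni i := fun i => ((hMV ℤ).1 _ _ (hNiV i)).2
  have hMp : ∀ s : Finset (Fin n), M (∏ i ∈ s, (H i).coeff 0) = ∏ i ∈ s, (Ni i : ℝ) := by
    intro s
    induction s using Finset.induction_on with
    | empty =>
      rw [Finset.prod_empty, Finset.prod_empty]
      exact (hMm ℤ).2.2 1 isUnit_one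
    | insert i s hi ih =>
      rw [Finset.prod_insert hi, Finset.prod_insert hi,
        (hMm ℤ).1 _ _ (fd.st i).1 (Finset.prod_ne_zero_iff.mpr fun k _ => (fd.st k).1), ih, hMi]
  obtain ⟨N', hN'⟩ : ∃ N' : ℕ, N' = ∏ i, Ni i := ⟨_, rfl⟩
  have hprod : N = c0 * N' := by
    have h3 := ((hMV ℤ).1 _ _ hcls).2
    rw [(hMm ℤ).1 _ _ fd.c0 (Finset.prod_ne_zero_iff.mpr fun k _ => (fd.st k).1), hMc, hMp] at h3
    have h4 : ((c0 * N' : ℕ) : ℝ) = N := by
      rw [← h3, hN']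
      push_cast
      rfl
    exact_mod_cast h4.symm
  -- big factors
  have hbig : ∀ i, i ∈ big H ↔ 2 ≤ Ni i := by
    intro i
    unfold big
    rw [Finset.mem_filter, hMi]
    constructor
    · rintro ⟨-, h3⟩
      have h4 : 1 < Ni i := by exact_mod_cast h3
      omega
    · intro h3
      refine ⟨Finset.mem_univ i, ?_⟩
      exact_mod_cast (by omega : 1 < Ni i)
  have hN'b : N' = ∏ i ∈ big H, Ni i := by
    rw [hN']
    symm
    apply Finset.prod_subset (Finset.subset_univ _)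
    intro i _ hi
    rw [hbig] at hi
    have := hNi1 i
    omega
  obtain ⟨SB, hSB⟩ : ∃ SB : ℕ, SB = ∑ i ∈ big H, Ni i := ⟨_, rfl⟩
  have hSBc : (SB = 0 ∧ N' = 1) ∨ (SB ≤ N' ∧ 2 ≤ N') := by
    rcases (big H).eq_empty_or_nonempty with h3 | h3
    · left
      rw [hSB, hN'b, h3]
      simp
    · right
      rw [hSB, hN'b]
      exact KV31.sum_le_prod _ _ (fun i hi => (hbig i).mp hi) h3
  -- the rank
  have hrk := hG1 ℤ P L phi G T i1 eta h1 c n H fd (fun i b _ hpu _ => absurd hpu (nopure i))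
  have hrk2 : ∑ i ∈ big H, rk (supp (H i)) ≤ 2 * SB := by
    rw [hSB, Finset.mul_sum]
    apply Finset.sum_le_sum
    intro i hi
    exact (KV31.fac_rank hEvz hEv1 hFcl hR hRS K.im fd i ((hbig i).mp hi) (hNiV i)).1
  have hrk3 : 2 * (c0 * N') ≤ (snp phi T i1 H).card + 2 * SB := by
    have h2 := K.dr i1 h1
    have h3 := K.fr
    omega
  -- the masses
  obtain ⟨m, t, hmt, hms⟩ := O1.H12.qsk hSm hQst hQp hKe hMm hMV hE1 hDb hNn hHp hGen hE hEv hSh
    hDe hZ hU hFace hSt hMu hE2 hP hB3 hFull phi G T i1 eta h1 c n H fd _ hcV n0 (C s0 * V) hsumT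
    nod
  have hmt' : ∀ l ∈ snp phi T i1 H, 1 ≤ m l ∧ (m l : ℝ) ≤ c0 ∧ t l ≠ 0 ∧ NnR (t l) := by
    intro l hl
    obtain ⟨h5, h6, L', _, _, _, W, hW0, hWp, hWt⟩ := hmt l hl
    have h7 := H38n.npos_nnT hSh W hWp
    refine ⟨h5, by rw [← hMc]; exact h6, ?_, ?_⟩
    · rw [← hWt]
      exact H76.t_ne hZ hNn W h7 hW0
    · rw [← hWt]
      exact H76.nnR_of_nnT hDe hSh hEv hNn W h7
  have hms' : ∀ z : Circle, (∑ l ∈ snp phi T i1 H, (evR z (t l)).re / (m l : ℝ)) *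
      ‖((C s0 * V).map (Coef.emb : ℤ →+* ℂ)).eval (z : ℂ)‖ ^ 2 ≤
      2 * (((C s0 * E).map (Coef.emb : ℤ →+* ℂ)).eval (z : ℂ) *
        (starRingEnd ℂ) (((C s0 * V).map (Coef.emb : ℤ →+* ℂ)).eval (z : ℂ))).re -
        ‖((C s0 * V).map (Coef.emb : ℤ →+* ℂ)).eval (z : ℂ)‖ ^ 2 := by
    intro z
    have h2 := hms z
    rw [hsumT, hq', H96.ev_T_mul, H96.ev_T_mul, H96.circ_mul_conj, norm_mul, H96.norm_circle,
      one_mul] at h2
    exact h2
  have hmean := mas0 hNr hfat (q := (C s0 * E).map (Coef.emb : ℤ →+* ℂ))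
    (v := (C s0 * V).map (Coef.emb : ℤ →+* ℂ)) (by
      intro z hz
      rw [emC]
      exact mul_ne_zero hs0c (K.Ez z hz)) (by
      intro z hz
      rw [emC]
      exact mul_ne_zero hs0c (Vz z hz)) (by
      intro z hz
      rw [emC, emC, ← mul_sub, norm_mul, norm_mul]
      apply mul_le_mul_of_nonneg_left _ (norm_nonneg _)
      have h2 : (aeval z V : ℂ) - aeval z E = -aeval z ((1 + X) * f) := by
        rw [hV, map_sub]
        ring
      rw [h2, norm_neg]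
      exact hle z hz) (snp phi T i1 H) t m (fun l hl => (hmt' l hl).2.2.1)
    (fun l hl => (hmt' l hl).2.2.2) hms'
  have hc0R : (0 : ℝ) < c0 := by exact_mod_cast hc0
  have hNR : (0 : ℝ) < N := by exact_mod_cast (by omega : 0 < N)
  have hjN : (j : ℝ) = N + 1 := by
    have : j = N + 1 := by omega
    rw [this]
    push_cast
    rfl
  have hval0 : 2 * (((C s0 * E).map (Coef.emb : ℤ →+* ℂ)).eval 0 /
      ((C s0 * V).map (Coef.emb : ℤ →+* ℂ)).eval 0).re - 1 = 1 + 2 / N := by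
    have a0 : ∀ p : ℤ[X], (aeval (0 : ℂ) p : ℂ) = ((p.coeff 0 : ℤ) : ℂ) := by
      intro p
      rw [← coeff_zero_eq_aeval_zero']
      simp
    rw [emC, emC, a0, a0, K.E0, V0, ← hNj, mul_div_mul_left _ _ hs0c]
    have h2 : (((j : ℤ) : ℂ) / (((N : ℤ) : ℤ) : ℂ)) = (((j : ℝ) / N : ℝ) : ℂ) := by
      push_cast
      rfl
    rw [h2, Complex.ofReal_re, hjN]
    field_simp
    ring
  rw [hval0] at hmean
  have hterm : ∀ l ∈ snp phi T i1 H, (1 : ℝ) / c0 ≤ ((t l).coeff 0 : ℝ) / (m l : ℝ) := by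
    intro l hl
    obtain ⟨h5, h6, h7, h8⟩ := hmt' l hl
    have h9 : (1 : ℝ) ≤ ((t l).coeff 0 : ℝ) := by
      exact_mod_cast (SFH27.nr_int hNr h7 h8).1
    have h10 : (0 : ℝ) < m l := by exact_mod_cast h5
    exact div_le_div₀ (by linarith) h9 h10 h6
  have hcard : ((snp phi T i1 H).card : ℝ) * (1 / c0) ≤ 1 + 2 / N := by
    refine le_trans ?_ hmean
    rw [← nsmul_eq_mul]
    exact Finset.card_nsmul_le_sum _ _ _ hterm
  have hL : (snp phi T i1 H).card * N' ≤ c0 * N' + 2 := by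
    have h2 : ((snp phi T i1 H).card : ℝ) * N' ≤ c0 * N' + 2 := by
      have h3 := mul_le_mul_of_nonneg_right hcard hNR.le
      have h4 : ((snp phi T i1 H).card : ℝ) * (1 / c0) * N = (snp phi T i1 H).card * N' := by
        rw [hprod]
        push_cast
        field_simp
      have h5 : (1 + 2 / (N : ℝ)) * N = N + 2 := by field_simp
      rw [h4, h5, hprod] at h3
      push_cast at h3
      exact h3
    exact_mod_cast h2
  rcases ns_num hj (by omega) hL hrk3 hSBc with h2 | ⟨h2, h3, h4⟩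
  · -- the content has measure one
    subst h2
    refine ns_one hG hT hNr hfat phi G T i1 eta h1 c n H fd (by rw [hMc]; simp) n0 (C s0 * E)
      (-(C s0 * ((1 + X) * f))) j a hj K.fr hq' hb' ?_ ?_ ?_ ?_ ?_ ?_ K.loc.a0 K.aj K.lt ?_ hsn
    · intro z hz
      rw [emC]
      exact mul_ne_zero hs0c (K.Ez z hz.le)
    · intro z hz
      rw [hsq, emC]
      exact mul_ne_zero hs0c (Vz z hz)
    · rw [coeff_neg, abs_neg, mul_coeff_zero, mul_coeff_zero, K.f0, coeff_C_zero, coeff_add,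
        coeff_one_zero, coeff_X_zero, add_zero, one_mul, mul_one]
      exact hs1'
    · rw [mul_coeff_zero, coeff_C_zero, K.E0, abs_mul, hs1', one_mul, Nat.abs_cast]
    · rw [hsq, mul_coeff_zero, coeff_C_zero, V0, abs_mul, hs1', one_mul, ← hNj, Nat.abs_cast]
    · simp
    · -- the value at `a`
      have ha0 := K.loc.a0
      have ha1 := K.loc.a1
      have hqa : (aeval (a : ℂ) q : ℂ) = 0 := by
        obtain ⟨s, hs, -⟩ := K.loc.s
        rw [← aeval_map_real, hs, map_mul]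
        simp
      have haC : (a : ℂ) ≠ 0 := by exact_mod_cast ha0.ne'
      have ha1C : (1 + (a : ℂ)) ≠ 0 := by
        have : (1 + a : ℝ) ≠ 0 := by linarith
        exact_mod_cast this
      have hnorm : ‖(a : ℂ)‖ < 1 := by
        rw [Complex.norm_real, Real.norm_eq_abs, abs_of_pos ha0]
        exact ha1
      have hF : (aeval (a : ℂ) f : ℂ) = a * aeval (a : ℂ) E := by
        have h5 := congrArg (fun p : ℤ[X] => (aeval (a : ℂ) p : ℂ)) K.eE
        simp only [map_sub, map_mul, aeval_X, hqa, sub_zero] at h5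
        exact h5
      have hEa := K.Ez _ hnorm.le
      have hbe : ((-(C s0 * ((1 + X) * f)) : ℤ[X]).map (Coef.emb : ℤ →+* ℂ)).eval (a : ℂ) =
          -((s0 : ℂ) * ((1 + (a : ℂ)) * (a * aeval (a : ℂ) E))) := by
        rw [Polynomial.map_neg, eval_neg, emC, map_mul, map_add, map_one, aeval_X, hF]
      rw [emC, hbe]
      have h5 : (s0 : ℂ) * aeval (a : ℂ) E / -((s0 : ℂ) * ((1 + (a : ℂ)) * (a * aeval (a : ℂ) E))) =
          ((-(1 / (a * (1 + a))) : ℝ) : ℂ) := by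
        push_cast
        field_simp
      rw [h5, Complex.ofReal_re]
      have h6 : 0 < a * (1 + a) := by positivity
      rw [neg_neg, one_div, inv_mul_cancel₀ h6.ne']
  · -- the content has measure two
    have hN2 : (N : ℝ) = 2 := by
      rw [hprod, h2, h3]
      norm_num
    have hc2 : (c0 : ℝ) = 2 := by
      rw [h2]
      norm_num
    rw [hN2] at hmean
    rw [hc2] at hterm
    have hsum : ∑ _l ∈ snp phi T i1 H, (1 : ℝ) / 2 =
        ∑ l ∈ snp phi T i1 H, ((t l).coeff 0 : ℝ) / (m l : ℝ) := by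
      apply le_antisymm (Finset.sum_le_sum hterm)
      rw [Finset.sum_const, h4]
      norm_num
      linarith
    have hall := (Finset.sum_eq_sum_iff_of_le hterm).mp hsum
    have hone : ∀ l ∈ snp phi T i1 H, t l = 1 ∧ (1 : ℝ) / (m l : ℝ) = 1 / 2 := by
      intro l hl
      obtain ⟨h5, h6, h7, h8⟩ := hmt' l hl
      have h9 := (SFH27.nr_int hNr h7 h8).1
      have h10 : (0 : ℝ) < m l := by exact_mod_cast h5
      have h11 := hall l hl
      rw [hc2] at h6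
      have h12 : ((t l).coeff 0 : ℝ) = m l / 2 := by
        field_simp at h11
        linarith
      have h13 : ((t l).coeff 0 : ℝ) ≤ 1 := by linarith
      have h14 : (t l).coeff 0 = 1 := by
        have : (t l).coeff 0 ≤ 1 := by exact_mod_cast h13
        omega
      refine ⟨t_one hNr h7 h8 h14, ?_⟩
      rw [h11, h14]
      norm_num
    obtain ⟨zc, hzc⟩ := circle_of (-1) (by simp)
    have h5 := hms' zc
    have h6 : ∑ l ∈ snp phi T i1 H, (evR zc (t l)).re / (m l : ℝ) = 2 := by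
      have h7 : ∀ l ∈ snp phi T i1 H, (evR zc (t l)).re / (m l : ℝ) = 1 / 2 := by
        intro l hl
        obtain ⟨h8, h9⟩ := hone l hl
        rw [h8, map_one, Complex.one_re, h9]
      rw [Finset.sum_congr rfl h7, Finset.sum_const, h4]
      norm_num
    rw [h6, hzc, emC, emC, ← hVE, Complex.mul_conj, Complex.normSq_eq_norm_sq,
      Complex.ofReal_re] at h5
    have h7 : 0 < ‖(s0 : ℂ) * (aeval (-1 : ℂ) V : ℂ)‖ ^ 2 :=
      pow_pos (norm_pos_iff.mpr (mul_ne_zero hs0c hVm)) 2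
    linarith

end Pool.Agent.B5.KV.H47
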